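import Mathlib

namespace Pool.Agent.Results.MP_64ab56_co.Coarse21

open SimpleGraph

/-- `G` contains a subdivision of `H`: there are distinct branch vertices `f w` of `G`, one for
each vertex `w` of `H`, and for every edge `a b` of `H` a path of `G` from `f a` to `f b`, such
that the only branch vertices on the path are its two ends, and paths of different edges of `H`
meet only in vertices that are ends of both. -/
def ContainsSubdivision {W V : Type} (H : SimpleGraph W) (G : SimpleGraph V) : Prop :=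
  ∃ (f : W → V) (P : ∀ a b : W, H.Adj a b → G.Walk (f a) (f b)),
    Function.Injective f ∧
    (∀ a b h, (P a b h).IsPath) ∧
    (∀ a b h w, f w ∈ (P a b h).support → w = a ∨ w = b) ∧
    (∀ a b c d h h', s(a, b) ≠ s(c, d) → ∀ v, v ∈ (P a b h).support →
      v ∈ (P c d h').support → (v = f a ∨ v = f b) ∧ (v = f c ∨ v = f d))

/-- A graph is nonplanar if it contains a subdivision of `K₅` or of `K₃,₃` (Kuratowski). -/
def Nonplanar {V : Type} (G : SimpleGraph V) : Prop :=
  ContainsSubdivision (⊤ : SimpleGraph (Fin 5)) G ∨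
    ContainsSubdivision (completeBipartiteGraph (Fin 3) (Fin 3)) G

/-- There are `k` pairwise edge-disjoint nonplanar subgraphs of `G`. -/
def HasPacking {V : Type} (G : SimpleGraph V) (k : ℕ) : Prop :=
  ∃ H : Fin k → G.Subgraph, (∀ i, Nonplanar (H i).coe) ∧
    ∀ i j, i ≠ j → Disjoint (H i).edgeSet (H j).edgeSet

/-- The coarseness of `G`: the largest `k` such that `G` contains `k` pairwise edge-disjoint
nonplanar subgraphs. -/
noncomputable def coarseness {V : Type} (G : SimpleGraph V) : ℕ :=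
  sSup {k | HasPacking G k}

/-! ### General facts -/

theorem subdivision_of_copy {W V : Type} (H : SimpleGraph W) (G : SimpleGraph V) (f : W → V)
    (hf : Function.Injective f) (hadj : ∀ a b, H.Adj a b → G.Adj (f a) (f b)) :
    ContainsSubdivision H G := by
  refine ⟨f, fun a b h => (hadj a b h).toWalk, hf, ?_, ?_, ?_⟩
  · intro a b h
    exact Walk.IsPath.of_adj (hadj a b h)
  · intro a b h w hw
    simp only [Adj.toWalk, Walk.support_cons, Walk.support_nil, List.mem_cons,
      List.not_mem_nil, or_false] at hw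
    rcases hw with hw | hw
    · exact Or.inl (hf hw)
    · exact Or.inr (hf hw)
  · intro a b c d h h' _ v hv hv'
    simp only [Adj.toWalk, Walk.support_cons, Walk.support_nil, List.mem_cons,
      List.not_mem_nil, or_false] at hv hv'
    exact ⟨hv, hv'⟩

theorem exists_adj_of_subdivision {W V : Type} (H : SimpleGraph W) (G : SimpleGraph V)
    (h : ContainsSubdivision H G) {a b : W} (hab : H.Adj a b) : ∃ u v, G.Adj u v := by
  obtain ⟨f, P, hf, -⟩ := h
  have hne : f a ≠ f b := fun h => hab.ne (hf h)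
  exact ⟨_, _, (P a b hab).adj_snd (Walk.not_nil_of_ne hne)⟩

theorem exists_adj_of_nonplanar {V : Type} {G : SimpleGraph V} (h : Nonplanar G) :
    ∃ u v, G.Adj u v := by
  rcases h with h | h
  · exact exists_adj_of_subdivision _ _ h (a := 0) (b := 1) (by simp)
  · exact exists_adj_of_subdivision _ _ h (a := Sum.inl 0) (b := Sum.inr 0) (by simp)

/-- The set of packing sizes of a finite graph is bounded, so the coarseness is a maximum. -/
theorem packing_bddAbove {V : Type} [Fintype V] [DecidableEq V] (G : SimpleGraph V) :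
    BddAbove {k | HasPacking G k} := by
  refine ⟨Fintype.card (Sym2 V), ?_⟩
  rintro k ⟨H, hH, hdisj⟩
  have hex : ∀ i, ∃ e, e ∈ (H i).edgeSet := by
    intro i
    obtain ⟨u, v, huv⟩ := exists_adj_of_nonplanar (hH i)
    exact ⟨s((u : V), (v : V)), huv⟩
  choose e he using hex
  have hinj : Function.Injective e := by
    intro i j hij
    by_contra hne
    exact Set.disjoint_left.mp (hdisj i j hne) (he i) (hij ▸ he j)
  simpa using Fintype.card_le_of_injective e hinj

/-! ### The packing of `K₂₁` -/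

/-- The colour table: entry `(u, v)` is the number (`1` to `22`) of the subgraph containing the
edge `u v`, and `0` if the edge is not used. -/
def table : List (List ℕ) :=
  [[0, 1, 1, 1, 1, 2, 2, 2, 2, 13, 19, 10, 13, 13, 16, 10, 16, 19, 10, 16, 19],
   [1, 0, 1, 1, 1, 3, 21, 12, 15, 3, 3, 3, 18, 15, 15, 18, 21, 12, 18, 21, 12],
   [1, 1, 0, 1, 1, 11, 4, 11, 11, 4, 19, 10, 4, 4, 16, 10, 16, 19, 10, 16, 19],
   [1, 1, 1, 0, 1, 14, 8, 5, 8, 7, 5, 10, 5, 8, 5, 10, 7, 14, 10, 7, 14],
   [1, 1, 1, 1, 0, 20, 20, 20, 6, 7, 19, 6, 18, 6, 6, 18, 7, 19, 18, 7, 19],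
   [2, 3, 11, 14, 20, 0, 2, 2, 2, 3, 3, 3, 14, 17, 14, 20, 11, 17, 20, 11, 17],
   [2, 21, 4, 8, 20, 2, 0, 2, 2, 4, 21, 21, 4, 4, 16, 20, 16, 8, 20, 16, 8],
   [2, 12, 11, 5, 20, 2, 2, 0, 2, 12, 5, 12, 5, 17, 5, 20, 11, 17, 20, 11, 17],
   [2, 15, 11, 8, 6, 2, 2, 2, 0, 9, 9, 6, 9, 6, 6, 15, 11, 8, 15, 11, 8],
   [13, 3, 4, 7, 7, 3, 4, 12, 9, 0, 3, 3, 4, 4, 7, 9, 13, 12, 9, 13, 12],
   [19, 3, 19, 5, 19, 3, 21, 5, 9, 3, 0, 3, 5, 17, 5, 9, 21, 17, 9, 21, 17],
   [10, 3, 10, 10, 6, 3, 21, 12, 6, 3, 3, 0, 18, 6, 6, 18, 21, 12, 18, 21, 12],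
   [13, 18, 4, 5, 18, 14, 4, 5, 9, 4, 5, 18, 0, 4, 5, 9, 13, 14, 9, 13, 14],
   [13, 15, 4, 8, 6, 17, 4, 17, 6, 4, 17, 6, 4, 0, 6, 15, 13, 8, 15, 13, 8],
   [16, 15, 16, 5, 6, 14, 16, 5, 6, 7, 5, 6, 5, 6, 0, 15, 7, 14, 15, 7, 14],
   [10, 18, 10, 10, 18, 20, 20, 20, 15, 9, 9, 18, 9, 15, 15, 0, 0, 0, 22, 22, 22],
   [16, 21, 16, 7, 7, 11, 16, 11, 11, 13, 21, 21, 13, 13, 7, 0, 0, 0, 22, 22, 22],
   [19, 12, 19, 14, 19, 17, 8, 17, 8, 12, 17, 12, 14, 8, 14, 0, 0, 0, 22, 22, 22],
   [10, 18, 10, 10, 18, 20, 20, 20, 15, 9, 9, 18, 9, 15, 15, 22, 22, 22, 0, 0, 0],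
   [16, 21, 16, 7, 7, 11, 16, 11, 11, 13, 21, 21, 13, 13, 7, 22, 22, 22, 0, 0, 0],
   [19, 12, 19, 14, 19, 17, 8, 17, 8, 12, 17, 12, 14, 8, 14, 22, 22, 22, 0, 0, 0]]

/-- The colour of a pair. -/
def colour (u v : Fin 21) : ℕ := (table.getD u.val []).getD v.val 0

theorem colour_symm : ∀ u v : Fin 21, colour u v = colour v u := by decide +kernel

theorem colour_diag : ∀ u : Fin 21, colour u u = 0 := by decide +kernel

/-- The `i`-th subgraph. -/
def piece (i : Fin 22) : (⊤ : SimpleGraph (Fin 21)).Subgraph where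
  verts := Set.univ
  Adj u v := colour u v = i.val + 1
  adj_sub := by
    intro u v h
    simp only [top_adj]
    rintro rfl
    rw [colour_diag] at h
    omega
  edge_vert := fun _ => Set.mem_univ _
  symm := ⟨fun u v h => by rw [colour_symm]; exact h⟩

theorem nonplanar_of_K5 (i : Fin 22) (f : Fin 5 → Fin 21) (hf : Function.Injective f)
    (h : ∀ a b, a ≠ b → colour (f a) (f b) = i.val + 1) : Nonplanar (piece i).coe := by
  left
  refine subdivision_of_copy _ _ (fun a => ⟨f a, Set.mem_univ _⟩) ?_ ?_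
  · intro a b hab
    exact hf (congrArg Subtype.val hab)
  · intro a b hab
    exact h a b hab.ne

theorem nonplanar_of_K33 (i : Fin 22) (f g : Fin 3 → Fin 21) (hf : Function.Injective f)
    (hg : Function.Injective g)
    (h : ∀ a b, colour (f a) (g b) = i.val + 1) : Nonplanar (piece i).coe := by
  right
  refine subdivision_of_copy _ _ (fun a => ⟨Sum.elim f g a, Set.mem_univ _⟩) ?_ ?_
  · intro a b hab
    have hab' : Sum.elim f g a = Sum.elim f g b := congrArg Subtype.val hab
    rcases a with a | a <;> rcases b with b | b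
    · exact congrArg _ (hf hab')
    · exfalso
      simp only [Sum.elim_inl, Sum.elim_inr] at hab'
      have := h a b
      rw [hab', colour_diag] at this
      omega
    · exfalso
      simp only [Sum.elim_inl, Sum.elim_inr] at hab'
      have := h b a
      rw [hab', colour_diag] at this
      omega
    · exact congrArg _ (hg hab')
  · intro a b hab
    rcases a with a | a <;> rcases b with b | b
    · simp at hab
    · exact h a b
    · change colour (g a) (f b) = _
      rw [colour_symm]
      exact h b a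
    · simp at hab

theorem piece_nonplanar (i : Fin 22) : Nonplanar (piece i).coe := by
  fin_cases i
  · exact nonplanar_of_K5 _ ![0, 1, 2, 3, 4] (by decide) (by decide +kernel)
  · exact nonplanar_of_K5 _ ![0, 5, 6, 7, 8] (by decide) (by decide +kernel)
  · exact nonplanar_of_K5 _ ![1, 5, 9, 10, 11] (by decide) (by decide +kernel)
  · exact nonplanar_of_K5 _ ![2, 6, 9, 12, 13] (by decide) (by decide +kernel)
  · exact nonplanar_of_K5 _ ![3, 7, 10, 12, 14] (by decide) (by decide +kernel)
  · exact nonplanar_of_K5 _ ![4, 8, 11, 13, 14] (by decide) (by decide +kernel)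
  · exact nonplanar_of_K33 _ ![3, 4, 14] ![9, 16, 19] (by decide) (by decide) (by decide +kernel)
  · exact nonplanar_of_K33 _ ![3, 17, 20] ![6, 8, 13] (by decide) (by decide) (by decide +kernel)
  · exact nonplanar_of_K33 _ ![8, 15, 18] ![9, 10, 12] (by decide) (by decide) (by decide +kernel)
  · exact nonplanar_of_K33 _ ![0, 2, 3] ![11, 15, 18] (by decide) (by decide) (by decide +kernel)
  · exact nonplanar_of_K33 _ ![2, 16, 19] ![5, 7, 8] (by decide) (by decide) (by decide +kernel)
  · exact nonplanar_of_K33 _ ![1, 9, 11] ![7, 17, 20] (by decide) (by decide) (by decide +kernel)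
  · exact nonplanar_of_K33 _ ![0, 16, 19] ![9, 12, 13] (by decide) (by decide) (by decide +kernel)
  · exact nonplanar_of_K33 _ ![3, 12, 14] ![5, 17, 20] (by decide) (by decide) (by decide +kernel)
  · exact nonplanar_of_K33 _ ![1, 15, 18] ![8, 13, 14] (by decide) (by decide) (by decide +kernel)
  · exact nonplanar_of_K33 _ ![0, 2, 6] ![14, 16, 19] (by decide) (by decide) (by decide +kernel)
  · exact nonplanar_of_K33 _ ![5, 7, 10] ![13, 17, 20] (by decide) (by decide) (by decide +kernel)
  · exact nonplanar_of_K33 _ ![1, 4, 11] ![12, 15, 18] (by decide) (by decide) (by decide +kernel)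
  · exact nonplanar_of_K33 _ ![0, 2, 4] ![10, 17, 20] (by decide) (by decide) (by decide +kernel)
  · exact nonplanar_of_K33 _ ![4, 15, 18] ![5, 6, 7] (by decide) (by decide) (by decide +kernel)
  · exact nonplanar_of_K33 _ ![1, 10, 11] ![6, 16, 19] (by decide) (by decide) (by decide +kernel)
  · exact nonplanar_of_K33 _ ![15, 16, 17] ![18, 19, 20] (by decide) (by decide) (by decide +kernel)

theorem hasPacking_22 : HasPacking (⊤ : SimpleGraph (Fin 21)) 22 := by
  refine ⟨piece, piece_nonplanar, ?_⟩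
  intro i j hij
  rw [Set.disjoint_left]
  intro e hi hj
  induction e with
  | h u v =>
    have h1 : colour u v = i.val + 1 := hi
    have h2 : colour u v = j.val + 1 := hj
    exact hij (Fin.ext (by omega))

/-- **Main theorem.** The coarseness of the complete graph on 21 vertices is at least 22
(whereas the conjectured value is 21). -/
theorem result : 22 ≤ coarseness (⊤ : SimpleGraph (Fin 21)) :=
  le_csSup (packing_bddAbove _) hasPacking_22

end Pool.Agent.Results.MP_64ab56_co.Coarse21
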